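import Pool.Agent.Helper64.PC.Frc

/-!
# `JP` is countably closed, hence adds no new functions with countable domain
-/

namespace Pool.Agent.Helper80.PC

open Pool.Agent.Helper64.PC Set

theorem dist_big_restrict {r : ℕ} {S : Set (List ℕ)} {l : List ℕ} (hb : Big r S l) :
    Big r {x | x ∈ S ∧ ∃ s : List ℕ, s.length = r ∧ x = s ++ l} l := by
  induction r generalizing l with
  | zero => exact ⟨hb, [], rfl, rfl⟩
  | succ r ih =>
    refine Set.Infinite.mono (fun t ht => ?_) hb
    refine big_mono ?_ (ih ht)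
    rintro x ⟨hx, s, hs, rfl⟩
    exact ⟨hx, s ++ [t], by simp [hs], by simp⟩

/-- The intersection of the first sets of a decreasing sequence is positive. -/
theorem dist_inter (A : ℕ → JP) (hA : ∀ m n, m ≤ n → A n ≤ A m) (m : ℕ) :
    Pos {l | ∀ i ≤ m, l ∈ (A i).S} := by
  have key : ∀ k, Pos {l | l ∈ (A m).S ∧ ∀ i < k, i ≤ m → l ∈ (A i).S} := by
    intro k
    induction k with
    | zero =>
      refine pos_mono ?_ (A m).pos
      intro l hl
      exact ⟨hl, fun i hi => absurd hi (Nat.not_lt_zero i)⟩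
    | succ k ih =>
      by_cases hk : k ≤ m
      · have h1 : {l | l ∈ (A m).S ∧ ∀ i < k, i ≤ m → l ∈ (A i).S} ⊆
            {l | l ∈ (A m).S ∧ ∀ i < k + 1, i ≤ m → l ∈ (A i).S} ∪ ((A m).S \ (A k).S) := by
          rintro l ⟨hl, hl'⟩
          by_cases hlk : l ∈ (A k).S
          · left
            refine ⟨hl, fun i hi him => ?_⟩
            rcases Nat.lt_succ_iff_lt_or_eq.1 hi with h | rfl
            · exact hl' i h him
            · exact hlk
          · exact Or.inr ⟨hl, hlk⟩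
        rcases pos_union (pos_mono h1 ih) with h2 | h2
        · exact h2
        · exact absurd h2 (hA k m hk)
      · refine pos_mono ?_ ih
        rintro l ⟨hl, hl'⟩
        refine ⟨hl, fun i hi him => hl' i ?_ him⟩
        omega
  refine pos_mono ?_ (key (m + 1))
  rintro l ⟨_, hl⟩ i hi
  exact hl i (Nat.lt_succ_of_le hi) hi

/-- `JP` is countably closed. -/
theorem dist_closed (A : ℕ → JP) (hA : ∀ m n, m ≤ n → A n ≤ A m) : ∃ B : JP, ∀ n, B ≤ A n := by
  choose l hl using fun m => dist_inter A hA m m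
  let S : Set (List ℕ) :=
    {x | ∃ m, (∀ i ≤ m, x ∈ (A i).S) ∧ ∃ s : List ℕ, s.length = m ∧ x = s ++ l m}
  have hS : Pos S := by
    intro m
    refine ⟨l m, big_mono ?_ (dist_big_restrict (hl m))⟩
    rintro x ⟨hx, s, hs, he⟩
    exact ⟨m, hx, s, hs, he⟩
  refine ⟨⟨S, hS⟩, fun n => ?_⟩
  show ¬ Pos (S \ (A n).S)
  refine not_pos_of_length (∑ m ∈ Finset.range n, (m + (l m).length)) ?_
  rintro x ⟨⟨m, hm, s, hs, rfl⟩, hx⟩
  have hmn : m < n := by
    by_contra h
    exact hx (hm n (not_lt.1 h))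
  have h1 : m + (l m).length ≤ ∑ m ∈ Finset.range n, (m + (l m).length) :=
    Finset.single_le_sum (f := fun m => m + (l m).length) (fun i _ => Nat.zero_le _)
      (Finset.mem_range.2 hmn)
  rw [List.length_append, hs]
  exact h1

/-- `JP` adds no new functions. -/
theorem st_dist : ST_dist := by
  intro p I T _ b
  rcases isEmpty_or_nonempty I with hI | hI
  · exact ⟨p, le_rfl, fun i => (hI.false i).elim, fun i => (hI.false i).elim⟩
  obtain ⟨e, he⟩ := exists_surjective_nat I
  have step : ∀ (n : ℕ) (a : {a : JP // a ≤ p}), ∃ a' : {a : JP // a ≤ p},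
      a'.1 ≤ a.1 ∧ ∃ t, b.V (e n) t a'.1 := by
    intro n a
    obtain ⟨q, hq, t, ht⟩ := b.total (e n) a.1 a.2
    exact ⟨⟨q, hq.trans a.2⟩, hq, t, ht⟩
  choose F hF hF' using step
  let A : ℕ → {a : JP // a ≤ p} := fun n => Nat.rec ⟨p, le_rfl⟩ (fun n a => F n a) n
  have hA1 : ∀ n, (A (n + 1)).1 ≤ (A n).1 := fun n => hF n (A n)
  have hA2 : ∀ n, ∃ t, b.V (e n) t (A (n + 1)).1 := fun n => hF' n (A n)
  have hA : ∀ m n, m ≤ n → (A n).1 ≤ (A m).1 := by
    intro m n h
    induction n, h using Nat.le_induction with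
    | base => exact le_rfl
    | succ n _ ih => exact (hA1 n).trans ih
  obtain ⟨B, hB⟩ : ∃ B : JP, ∀ n, B ≤ (A n).1 := dist_closed (fun n => (A n).1) hA
  choose g hg using he
  choose t ht using hA2
  refine ⟨B, hB 0, fun i => t (g i), fun i c r hr hc => ?_⟩
  have h1 : b.V (e (g i)) (t (g i)) r := b.mono _ _ _ _ (ht (g i)) (hr.trans (hB (g i + 1)))
  rw [hg] at h1
  exact b.uniq i c (t (g i)) r (hr.trans (hB 0)) hc h1

end Pool.Agent.Helper80.PC
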