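import Pool.Agent.Helper64.PC.Frc

/-!
# The cut is external (`ST_ext`)
-/

namespace Pool.Agent.Helper80.PC

open Pool.Agent.Helper64.PC Set

theorem ext_false {P : Type} [Preorder P] (D : NegData P) {X Y : Set ℕ} {q : P}
    (hX : D.U X q) (hY : D.U Y q) (h : ∀ i ∈ X, i ∈ Y → False) : False :=
  D.empty q (D.up _ _ q (fun i hi => (h i hi.1 hi.2).elim) (D.inter X Y q hX hY))

open Classical in
/-- The cut is external. -/
theorem st_ext : ST_ext := by
  intro P _ D R p h1 h2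
  let b : ℕ → ℕ := fun i => Nat.findGreatest (fun b => ∀ v ≤ b, v ∈ R i) (D.n 0 i)
  have h0 : D.U {i | 0 ∈ R i} p := h2 (fun _ => 0) (fun _ => 0) fun i => le_rfl
  have hb : ∀ i, 0 ∈ R i → ∀ v ≤ b i, v ∈ R i := by
    intro i hi
    have h3 : ∀ v ≤ 0, v ∈ R i := by
      intro v hv
      rw [Nat.le_zero.1 hv]
      exact hi
    exact Nat.findGreatest_spec (P := fun b => ∀ v ≤ b, v ∈ R i) (Nat.zero_le (D.n 0 i)) h3
  have h4 : ∀ k, D.U {i | b i < D.n k i} p := by
    intro k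
    refine D.dense _ p fun q hq => ?_
    obtain ⟨r, hr, h | h⟩ := D.ultra {i | b i < D.n k i} q
    · exact ⟨r, hr, h⟩
    · exfalso
      have hr' := hr.trans hq
      have h5 : D.U {i | D.n k i ∈ R i} r := by
        refine D.up _ _ r ?_ (D.inter _ _ r h (D.mono _ _ _ h0 hr'))
        rintro i ⟨hi, hi0⟩
        exact hb i hi0 _ (not_lt.1 hi)
      obtain ⟨s, hs, f, hf⟩ := h1 (D.n k) r hr' h5
      refine ext_false D hf (D.large f k s) ?_
      intro i (hi : D.n k i ≤ f (D.π i)) (hi' : f (D.π i) < D.n k i)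
      omega
  obtain ⟨q, hq, f, hf⟩ := D.cut b p h4
  have h6 : D.U {i | min (b i) (f (D.π i)) + 1 ∈ R i} p :=
    h2 (fun i => min (b i) (f (D.π i)) + 1) (fun j => f j + 1)
      (fun i => Nat.succ_le_succ (min_le_right _ _))
  have h7 := D.inter _ _ q (D.inter _ _ q hf (D.large f 0 q))
    (D.inter _ _ q (D.mono _ _ _ h6 hq) (D.mono _ _ _ h0 hq))
  refine ext_false D h7 h7 ?_
  rintro i ⟨⟨hi1, hi2⟩, hi3, hi4⟩ _
  change b i ≤ f (D.π i) at hi1
  change f (D.π i) < D.n 0 i at hi2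
  change min (b i) (f (D.π i)) + 1 ∈ R i at hi3
  change 0 ∈ R i at hi4
  rw [min_eq_left hi1] at hi3
  have h8 : ∀ v ≤ b i + 1, v ∈ R i := by
    intro v hv
    rcases Nat.le_succ_iff.1 hv with h | rfl
    · exact hb i hi4 v h
    · exact hi3
  have h9 : b i + 1 ≤ b i :=
    Nat.le_findGreatest (P := fun b => ∀ v ≤ b, v ∈ R i) (by omega) h8
  omega

end Pool.Agent.Helper80.PC
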