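import Pool.Agent.Helper64.PC.Frc

/-!
# The meaning of `isFun` (`ST_fun`)
-/

namespace Pool.Agent.Helper80.PC

open Pool.Agent.Helper64.PC Pool.Agent.Helper46.SP Pool.Agent.Helper94.SP Name

section

variable {P : Type} [Preorder P] [OrderTop P] {k : ℕ}

theorem fun_inner (v : Fin k → Name P) (w : Fin k) (x y z : Name P) (p : P) :
    Fo (.and (.mem 1 w.succ.succ.succ) (.and (.mem 0 w.succ.succ.succ) (.isOPair 1 0 2)))
      (Fin.cons y (Fin.cons x (Fin.cons z v : Fin (k + 1) → Name P) : Fin (k + 2) → Name P)) p ↔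
      FMem x (v w) p ∧ FMem y (v w) p ∧ FEq z (opair x y) p := by
  rw [fo_and, fo_and, fo_mem, fo_mem, fo_isOPair]
  rfl

theorem fun_A (v : Fin k → Name P) (w f : Fin k) {p : P} (hw : FEq (v w) omega p) :
    Fo (.all (.imp (.mem 0 f.succ) (.ex (.ex (.and (.mem 1 w.succ.succ.succ)
      (.and (.mem 0 w.succ.succ.succ) (.isOPair 1 0 2))))))) v p ↔
    ∀ z, ∀ q ≤ p, FMem z (v f) q → ∃ r ≤ q, ∃ n m : ℕ, FEq z (opair (num n) (num m)) r := by
  rw [fo_all]
  constructor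
  · intro h z q hq hz
    have h1 := h z
    rw [fo_imp] at h1
    have h2 := h1 q hq hz
    rw [fo_ex] at h2
    obtain ⟨r, hr, x, hx⟩ := h2 q le_rfl
    rw [fo_ex] at hx
    obtain ⟨s, hs', y, hy⟩ := hx r le_rfl
    rw [fun_inner] at hy
    obtain ⟨hx1, hy1, he⟩ := hy
    have hsp : s ≤ p := hs'.trans (hr.trans hq)
    have hx2 := (fmem_iff_of_feq hw x hsp).1 hx1
    have hy2 := (fmem_iff_of_feq hw y hsp).1 hy1
    rw [fmem_omega] at hx2 hy2
    obtain ⟨t, ht, n, hn⟩ := hx2 s le_rfl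
    obtain ⟨u, hu, m, hm⟩ := hy2 t ht
    refine ⟨u, hu.trans (ht.trans (hs'.trans hr)), n, m, ?_⟩
    exact feq_trans (feq_mono he (hu.trans ht)) (opair_congr (feq_mono hn hu) hm)
  · intro h z
    rw [fo_imp]
    intro q hq hz
    rw [fo_ex]
    intro q1 hq1
    obtain ⟨r, hr, n, m, he⟩ := h z q1 (hq1.trans hq) (fmem_mono hz hq1)
    refine ⟨r, hr, num n, ?_⟩
    rw [fo_ex]
    intro q2 hq2
    refine ⟨q2, le_rfl, num m, ?_⟩
    rw [fun_inner]
    have h2 : q2 ≤ p := hq2.trans (hr.trans (hq1.trans hq))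
    exact ⟨(fmem_iff_of_feq hw _ h2).2 (fmem_num_omega n q2),
      (fmem_iff_of_feq hw _ h2).2 (fmem_num_omega m q2), feq_mono he hq2⟩

theorem fun_uniq (v : Fin k → Name P) (f : Fin k) (x y : Name P) (p : P) :
    Fo (.and (.relMem f.succ.succ 1 0) (.all (.imp (.relMem f.succ.succ.succ 2 0) (.eq 0 1))))
      (Fin.cons y (Fin.cons x v : Fin (k + 1) → Name P)) p ↔
      FMem (opair x y) (v f) p ∧ ∀ z, ∀ q ≤ p, FMem (opair x z) (v f) q → FEq z y q := by
  rw [fo_and, fo_relMem, fo_all]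
  refine Iff.and Iff.rfl (forall_congr' fun z => ?_)
  rw [fo_imp]
  refine forall_congr' fun q => forall_congr' fun _ => ?_
  rw [fo_relMem, fo_eq]
  rfl

end

/-- The meaning of `isFun`. -/
theorem st_fun : ST_fun := by
  intro P _ _ k v w f p hw
  show Fo (.and _ _) v p ↔ _
  rw [fo_and, fun_A v w f hw, fo_all_omega _ v w hw]
  constructor
  · rintro ⟨h1, h2⟩
    refine ⟨h1, fun n q hq => ?_, fun n m m' q hq h h' => ?_⟩
    · have h3 := h2 n
      rw [fo_ex] at h3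
      obtain ⟨r, hr, y, hy⟩ := h3 q hq
      rw [fun_uniq] at hy
      have hrp : r ≤ p := hr.trans hq
      obtain ⟨s, hs', n', m', he⟩ := h1 _ r hrp hy.1
      obtain ⟨h4, h5⟩ := opair_inj he
      refine ⟨s, hs'.trans hr, m', ?_⟩
      exact fmem_congr (opair_congr (feq_refl _ _) h5) (feq_refl _ _) (fmem_mono hy.1 hs')
    · have h3 := h2 n
      rw [fo_ex] at h3
      obtain ⟨r, hr, y, hy⟩ := h3 q hq
      rw [fun_uniq] at hy
      have h4 := hy.2 (num m) r le_rfl (fmem_mono h hr)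
      have h5 := hy.2 (num m') r le_rfl (fmem_mono h' hr)
      exact num_inj (feq_trans h4 (feq_symm h5))
  · rintro ⟨h1, h2, h3⟩
    refine ⟨h1, fun n => ?_⟩
    rw [fo_ex]
    intro q hq
    obtain ⟨r, hr, m, hm⟩ := h2 n q hq
    refine ⟨r, hr, num m, ?_⟩
    rw [fun_uniq]
    refine ⟨hm, fun z s hs' hz => feq_dense fun t ht => ?_⟩
    have htp : t ≤ p := ht.trans (hs'.trans (hr.trans hq))
    obtain ⟨u, hu, n', m', he⟩ := h1 _ t htp (fmem_mono hz ht)
    obtain ⟨h4, h5⟩ := opair_inj he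
    refine ⟨u, hu, ?_⟩
    have hut : u ≤ s := hu.trans ht
    have h6 : FMem (opair (num n) (num m')) (v f) u :=
      fmem_congr (opair_congr (feq_refl _ _) h5) (feq_refl _ _) (fmem_mono hz hut)
    have h7 : m = m' := h3 n m m' u (hu.trans htp) (fmem_mono hm (hut.trans hs')) h6
    rw [h7]
    exact h5

end Pool.Agent.Helper80.PC
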